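import Pool.Agent.H61.CA.C2

/-!
# CORE C5 (helper25): Galois automorphisms normalise `GSet`

`γ` with `γ ι = ι`, `red (γ B) = θ ∘ β` (`β = red B`), residue automorphism `σ`; so `σ β = θ ∘ β`
and `β = θ ∘ σ⁻¹ β`.
-/

open MvPowerSeries

namespace Pool.Agent.H25.CA

open Pool.Agent.H13.CA Pool.Agent.H61.CA

variable {k : Type*} [Field k] {p s : ℕ} {F : FormalGroup (MvPowerSeries (Fin (s + 1)) k)}
  {L : Type*} [Field L] [Algebra k L] [Algebra (PowerSeries k) L]

omit [Algebra (PowerSeries k) L] in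
theorem red_map_res {α : MvPowerSeries (Fin s) L ≃ₐ[k] MvPowerSeries (Fin s) L} {τ : L ≃ₐ[k] L}
    (h : Res α τ) (x : PowerSeries (MvPowerSeries (Fin s) L)) :
    red (PowerSeries.map (α : MvPowerSeries (Fin s) L →+* MvPowerSeries (Fin s) L) x) =
      PowerSeries.map (τ : L →+* L) (red x) := by
  ext n
  unfold red
  rw [PowerSeries.coeff_map, PowerSeries.coeff_map, PowerSeries.coeff_map, PowerSeries.coeff_map]
  exact h _

omit [Algebra (PowerSeries k) L] in
theorem map_alg (τ : L ≃ₐ[k] L) (θ : PowerSeries k) :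
    PowerSeries.map (τ : L →+* L) (PowerSeries.map (algebraMap k L) θ) =
      PowerSeries.map (algebraMap k L) θ := by
  ext n
  rw [PowerSeries.coeff_map, PowerSeries.coeff_map]
  exact τ.commutes _

omit [Algebra (PowerSeries k) L] in
theorem map_symm_map (τ : L ≃ₐ[k] L) (x : PowerSeries L) :
    PowerSeries.map (τ.symm : L →+* L) (PowerSeries.map (τ : L →+* L) x) = x := by
  ext n
  rw [PowerSeries.coeff_map, PowerSeries.coeff_map]
  exact τ.symm_apply_apply _

omit [Algebra (PowerSeries k) L] in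
theorem res_symm {α : MvPowerSeries (Fin s) L ≃ₐ[k] MvPowerSeries (Fin s) L} {τ : L ≃ₐ[k] L}
    (h : Res α τ) : Res α.symm τ.symm := by
  intro x
  have h1 := h (α.symm x)
  rw [α.apply_symm_apply] at h1
  rw [h1, τ.symm_apply_apply]

theorem ccred_B (D : Slice k p s F L) : PowerSeries.constantCoeff (red D.B) = 0 :=
  map_hs D.hB.1 _

/-- `β = θ ∘ σ⁻¹ β` -/
theorem beta_eq {D : Slice k p s F L}
    {γ : MvPowerSeries (Fin s) L ≃ₐ[k] MvPowerSeries (Fin s) L} {θ : PowerSeries k}
    (h : IsGal D γ θ) {σ : L ≃ₐ[k] L} (hσ : Res γ σ) :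
    red D.B = PowerSeries.subst (PowerSeries.map (σ.symm : L →+* L) (red D.B))
      (PowerSeries.map (algebraMap k L) θ) := by
  have h1 := h.red_eq
  rw [red_map_res hσ] at h1
  have h2 := congrArg (PowerSeries.map (σ.symm : L →+* L)) h1
  rw [map_symm_map, map_subst' (hs_zero (ccred_B D)), map_alg] at h2
  exact h2

theorem IsGal.symm {D : Slice k p s F L}
    {γ : MvPowerSeries (Fin s) L ≃ₐ[k] MvPowerSeries (Fin s) L} {θ : PowerSeries k}
    (h : IsGal D γ θ) : ∃ θ', IsGal D γ.symm θ' := by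
  obtain ⟨θ', h1, h2, h3, h4⟩ := h.hom.inv' h.unit
  obtain ⟨σ, hσ⟩ := h.res
  refine ⟨θ', ?_, ⟨σ.symm, res_symm hσ⟩, h1, h2, ?_⟩
  · intro f
    have h5 := congrArg γ.symm (h.fix f)
    rw [γ.symm_apply_apply] at h5
    exact h5.symm
  · rw [red_map_res (res_symm hσ)]
    have hc := map_hs (ccred_B D) (σ.symm : L →+* L)
    conv_rhs => rw [beta_eq h hσ]
    rw [← subst_subst' (map_hs h.hom.1 _) hc, ← map_subst' (hs_zero h.hom.1), h3,
      PowerSeries.map_X, PowerSeries.subst_X (hs_zero hc)]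

theorem IsGal.conj_mem {D : Slice k p s F L}
    {γ : MvPowerSeries (Fin s) L ≃ₐ[k] MvPowerSeries (Fin s) L} {θ : PowerSeries k}
    (h : IsGal D γ θ) {V : Subgroup (Lift k F)}
    {α : MvPowerSeries (Fin s) L ≃ₐ[k] MvPowerSeries (Fin s) L} (hα : α ∈ GSet D V) :
    (γ.trans α).trans γ.symm ∈ GSet D V := by
  obtain ⟨a, ha, h1, ⟨τ, hτ⟩, h2⟩ := hα
  obtain ⟨σ, hσ⟩ := h.res
  have hfix : ∀ f, γ.symm (D.ι f) = D.ι f := by
    intro f
    have h5 := congrArg γ.symm (h.fix f)
    rw [γ.symm_apply_apply] at h5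
    exact h5.symm
  have hres : Res ((γ.trans α).trans γ.symm) ((σ.trans τ).trans σ.symm) := by
    intro x
    have e1 := res_symm hσ (α (γ x))
    have e2 := hτ (γ x)
    have e3 := hσ x
    rw [e2, e3] at e1
    exact e1
  refine ⟨a, ha, ?_, ⟨_, hres⟩, ?_⟩
  · intro f
    show γ.symm (α (γ (D.ι f))) = D.ι (a.g f)
    rw [h.fix, h1, hfix]
  · have hf0 : PowerSeries.constantCoeff (PowerSeries.map
        (D.ι : MvPowerSeries (Fin (s + 1)) k →+* MvPowerSeries (Fin s) L) a.f) = 0 :=
      map_hs a.hom.1 _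
    have hfr : PowerSeries.constantCoeff (red (PowerSeries.map
        (D.ι : MvPowerSeries (Fin (s + 1)) k →+* MvPowerSeries (Fin s) L) a.f)) = 0 :=
      map_hs hf0 _
    -- the reduction of `mm`
    have hmm : ∀ {α' : MvPowerSeries (Fin s) L ≃ₐ[k] MvPowerSeries (Fin s) L} {τ' : L ≃ₐ[k] L},
        Res α' τ' → red (mm D α' a) = PowerSeries.subst (red (PowerSeries.map
        (D.ι : MvPowerSeries (Fin (s + 1)) k →+* MvPowerSeries (Fin s) L) a.f))
          (PowerSeries.map (τ' : L →+* L) (red D.B)) := by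
      intro α' τ' h'
      rw [← red_map_res h']
      exact map_subst' (hs_zero hf0) _ _
    -- the reduction of `ι a.f` is fixed by `σ⁻¹`
    have hff : PowerSeries.map (σ.symm : L →+* L) (red (PowerSeries.map
        (D.ι : MvPowerSeries (Fin (s + 1)) k →+* MvPowerSeries (Fin s) L) a.f)) =
        red (PowerSeries.map
        (D.ι : MvPowerSeries (Fin (s + 1)) k →+* MvPowerSeries (Fin s) L) a.f) := by
      rw [← red_map_res (res_symm hσ)]
      congr 1
      ext n
      rw [PowerSeries.coeff_map, PowerSeries.coeff_map]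
      exact congrArg _ (hfix _)
    have h3 : PowerSeries.map (σ : L →+* L) (red D.B) =
        PowerSeries.subst (red D.B) (PowerSeries.map (algebraMap k L) θ) := by
      rw [← red_map_res hσ]
      exact h.red_eq
    have h4 : PowerSeries.map (((σ.trans τ).trans σ.symm : L ≃ₐ[k] L) : L →+* L) (red D.B) =
        PowerSeries.map (σ.symm : L →+* L) (PowerSeries.map (τ : L →+* L)
          (PowerSeries.map (σ : L →+* L) (red D.B))) := by
      ext n
      rw [PowerSeries.coeff_map, PowerSeries.coeff_map, PowerSeries.coeff_map,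
        PowerSeries.coeff_map]
      rfl
    have hc1 := map_hs (ccred_B D) (τ : L →+* L)
    have hc2 := map_hs hc1 (σ.symm : L →+* L)
    rw [hmm hres, h4, h3, map_subst' (hs_zero (ccred_B D)), map_alg, map_subst' (hs_zero hc1),
      map_alg, subst_subst' hc2 hfr]
    rw [hmm hτ] at h2
    have h5 : PowerSeries.subst (red (PowerSeries.map
        (D.ι : MvPowerSeries (Fin (s + 1)) k →+* MvPowerSeries (Fin s) L) a.f))
        (PowerSeries.map (σ.symm : L →+* L) (PowerSeries.map (τ : L →+* L) (red D.B))) =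
        PowerSeries.map (σ.symm : L →+* L) (red D.B) := by
      have h6 := congrArg (PowerSeries.map (σ.symm : L →+* L)) h2
      rw [map_subst' (hs_zero hfr), hff] at h6
      exact h6
    rw [h5]
    exact (beta_eq h hσ).symm

end Pool.Agent.H25.CA
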